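import Mathlib
import Pool.Agent.TH735.Core

set_option autoImplicit false

namespace Pool.Agent.Results.MP_ac65b7_lc.RealField

open Pool.Agent.TH735 Set

/-- The question for every restrained expansion of the real field: each subset of the line which
is definable, with parameters, from definable open sets has interior or is nowhere dense.
Moreover every set in any number of variables which is definable from definable open sets has
nowhere dense frontier. -/
theorem result :
    ∀ (L : FirstOrder.Language.{0,0}) [L.Structure ℝ],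
      (∅ : Set ℝ).Definable L {v : Fin 3 → ℝ | v 0 + v 1 = v 2} →
      (∅ : Set ℝ).Definable L {v : Fin 3 → ℝ | v 0 * v 1 = v 2} →
      (∅ : Set ℝ).Definable L {v : Fin 2 → ℝ | v 0 < v 1} →
      (∀ (n : ℕ) (D : Set (Fin n → ℝ)) (g : (Fin n → ℝ) → ℝ),
        (Set.univ : Set ℝ).Definable L D → DiscreteTopology ↥D →
        (Set.univ : Set ℝ).Definable L
          {v : Fin (n + 1) → ℝ | Fin.init v ∈ D ∧ v (Fin.last n) = g (Fin.init v)} →
        interior (closure (g '' D)) = ∅) →
      ∀ (L' : FirstOrder.Language.{0,0}) [L'.Structure ℝ],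
        (∀ n, IsEmpty (L'.Functions n)) →
        (∀ (n : ℕ) (R : L'.Relations n),
          IsOpen {v : Fin n → ℝ | FirstOrder.Language.Structure.RelMap R v} ∧
          (Set.univ : Set ℝ).Definable L
            {v : Fin n → ℝ | FirstOrder.Language.Structure.RelMap R v}) →
        (∀ X : Set ℝ, (Set.univ : Set ℝ).Definable L' {v : Fin 1 → ℝ | v 0 ∈ X} →
          (interior X).Nonempty ∨ interior (closure X) = ∅) ∧
        ∀ (n : ℕ) (X : Set (Fin n → ℝ)), (Set.univ : Set ℝ).Definable L' X →
          interior (frontier X) = ∅ := by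
  intro L _ hadd hmul hlt hr L' _ hfun hrel
  have hRF : RF L := ⟨hadd, hmul, hlt⟩
  refine ⟨fun X hX => ?_, fun n X hX => ?_⟩
  · obtain ⟨Z, hZ, h⟩ := (loc_of_definable (L := L) hr hfun hrel hX).locally
    have hf := frontier_of_locally hZ.int h
    set e : ℝ ≃ₜ (Fin 1 → ℝ) := (Homeomorph.funUnique (Fin 1) ℝ).symm with he
    have hpre : e ⁻¹' {v : Fin 1 → ℝ | v 0 ∈ X} = X := by
      ext x
      rfl
    have hfX : interior (frontier X) = ∅ := by
      rw [← hpre, ← e.preimage_frontier, ← e.preimage_interior, hf, preimage_empty]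
    by_cases hi : (interior X).Nonempty
    · exact Or.inl hi
    · right
      rw [not_nonempty_iff_eq_empty] at hi
      rw [frontier, hi, sdiff_empty] at hfX
      exact hfX
  · obtain ⟨Z, hZ, h⟩ := (loc_of_definable (L := L) hr hfun hrel hX).locally
    exact frontier_of_locally hZ.int h

end Pool.Agent.Results.MP_ac65b7_lc.RealField
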